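import Mathlib
import Pool.Agent.R139.Sn

/-!
# Elements of the reduced Groebner bases of the toric ideal of `S_n` without a `0/1` summand
-/

set_option autoImplicit false

namespace Pool.Agent.Results.MP_ae75a9_co.NoZeroOneSummand

open MvPolynomial Pool.Agent.R139.Toric Pool.Agent.R139.Sn

/-- For every `n ≥ 4` and every field `k`: total orders as in the definition of the term orders
`≺_{S_n}` exist, and for every one of them the toric ideal `I_{S_n}` has a reduced Groebner basis
and every reduced Groebner basis contains a binomial `t^u - t^v` of degree `3` such that in every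
decomposition of its matrix as a sum of lattice points of `S_n` every summand has an entry equal
to `2`. -/
theorem result (k : Type*) [Field k] (n : ℕ) (hn : 4 ≤ n) :
    (∃ r : LatticePoint n → LatticePoint n → Prop, IsSnOrder r) ∧
    ∀ r : LatticePoint n → LatticePoint n → Prop, IsSnOrder r →
      (∃ G, IsReducedGB (GRevLex r) (toricIdeal n k) G) ∧
      ∀ G, IsReducedGB (GRevLex r) (toricIdeal n k) G →
        ∃ g ∈ G, g.totalDegree = 3 ∧
          ∃ u v : LatticePoint n →₀ ℕ, g = monomial u 1 - monomial v 1 ∧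
          ∀ Ms : Multiset (LatticePoint n),
            (∀ i j, (Ms.map fun M => M.1 i j).sum = matrixOf u i j) →
            ∀ M ∈ Ms, ∃ i j, M.1 i j = 2 := by
  refine ⟨exists_order n, ?_⟩
  obtain ⟨m, rfl⟩ := Nat.exists_eq_add_of_le' hn
  intro r hr
  obtain ⟨h1, h2⟩ := main k hr
  refine ⟨h1, fun G hG => ?_⟩
  obtain ⟨g, hg, hd, u, v, hguv, hA⟩ := h2 G hG
  refine ⟨g, hg, hd, u, v, hguv, ?_⟩
  intro Ms hMs M hM
  have hi : 3 < m + 4 := by omega
  refine ⟨⟨3, hi⟩, ⟨3, hi⟩, ?_⟩
  have hoff : ∀ j : Fin (m + 4), j ≠ ⟨3, hi⟩ → M.1 ⟨3, hi⟩ j = 0 := by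
    intro j hj
    have hj' : (3 : ℕ) ≠ j.1 := fun h => hj (Fin.ext h.symm)
    have h0 : matrixOf u ⟨3, hi⟩ j = 0 := by
      rw [hA]
      simp only
      rw [blk_symm 0 0 2, blk_symm 0 2 0, blk_symm 2 0 0,
        blk_off _ _ _ _ _ (Ne.symm hj') (le_refl 3),
        blk_off _ _ _ _ _ (Ne.symm hj') (le_refl 3),
        blk_off _ _ _ _ _ (Ne.symm hj') (le_refl 3)]
    rw [← hMs, Multiset.sum_eq_zero_iff] at h0
    exact h0 _ (Multiset.mem_map_of_mem _ hM)
  have h3 := M.2.2 ⟨3, hi⟩
  rwa [Finset.sum_eq_single (⟨3, hi⟩ : Fin (m + 4)) (fun j _ hj => hoff j hj)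
    (fun h => absurd (Finset.mem_univ _) h)] at h3

end Pool.Agent.Results.MP_ae75a9_co.NoZeroOneSummand
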